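import Pool.Agent.Helper109.FourMain

/-!
# Irreducible trinomials of degree `m` over the field with four elements give irreducible
# pentanomials of degree `2 m` over the field with two elements

If the coefficients are not all in the prime field, the minimal polynomial over the prime field of a
root of the trinomial has degree `2 m`, and it is the norm of the trinomial, which has five terms
(except for some trinomials in `X ^ (m / 2)`, which are replaced by members of an explicit family).
If all coefficients are in the prime field, the root is first multiplied by a cube root of unity.
-/

set_option autoImplicit false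

namespace Pool.Agent.Results.MP_3aa220_nt.FromFourTrinomials

open Polynomial

theorem result (K : Type) [Field K] [Fintype K] (hK : Fintype.card K = 4) (m k : ℕ) (b c : K)
    (hk : 0 < k) (hkm : k < m) (hb : b ≠ 0) (hc : c ≠ 0)
    (hirr : Irreducible (X ^ m + C b * X ^ k + C c : K[X])) :
    ∃ p : (ZMod 2)[X], p.natDegree = 2 * m ∧ p.support.card = 5 ∧ Irreducible p := by
  have h2 : Fact (Nat.Prime 2) := ⟨Nat.prime_two⟩
  have hchar : CharP K 2 := charP_of_card_eq_prime_pow (p := 2) (f := 2) (by rw [hK]; norm_num)
  letI : Algebra (ZMod 2) K := ZMod.algebra K 2
  exact Pool.Agent.Helper109.PD_of_four hK hk hkm hb hc hirr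

end Pool.Agent.Results.MP_3aa220_nt.FromFourTrinomials
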