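import Pool.Agent.Helper109.TriSixty

/-!
# Irreducible trinomials give irreducible pentanomials of the same degree

If `X ^ n + X ^ k + 1` is irreducible over the field with two elements and `n ≥ 4`, then there is an
irreducible pentanomial of degree `n`, except possibly if `60` divides `n` and `15` divides `k`.

If `3` does not divide both exponents, the pentanomial is the minimal polynomial of the third power
of a root; otherwise, if `5` does not divide both exponents, it is the minimal polynomial of the
fifth power (of which the terms are computed in all residue classes modulo five).  The only
trinomials for which this minimal polynomial has fewer than five terms are of the form `h (X ^ d)`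
with `h` of degree at most four, and they are replaced by members of explicit families.  If `15`
divides both exponents and the trinomial is irreducible, then `60` divides `n`.
-/

set_option autoImplicit false

namespace Pool.Agent.Results.MP_3aa220_nt.FromTrinomials

open Polynomial

theorem result (n k : ℕ) (hn : 4 ≤ n) (hk : 0 < k) (hkn : k < n) (h60 : ¬ (60 ∣ n ∧ 15 ∣ k))
    (hirr : Irreducible (X ^ n + X ^ k + 1 : (ZMod 2)[X])) :
    ∃ p : (ZMod 2)[X], p.natDegree = n ∧ p.support.card = 5 ∧ Irreducible p :=
  Pool.Agent.Helper109.PD_of_trinomial' hn hk hkn h60 hirr

end Pool.Agent.Results.MP_3aa220_nt.FromTrinomials
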