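import Pool.Agent.Helper109.LargeMain

/-!
# Binary pentanomials of every large degree with an irreducible factor of degree at least `0.428 n`

The number `3054 / 7133 = (3 / 7) * (1018 / 1019)` comes from minimal polynomials of roots of unity
of order `7 ^ (i + 1) * 1019 ^ (j + 1)`.
-/

set_option autoImplicit false

namespace Pool.Agent.Results.MP_3aa220_nt.LargeFactor

open Polynomial

theorem result (c : ℝ) (hc : c < 3054 / 7133) :
    ∃ N : ℕ, ∀ n : ℕ, N ≤ n → ∃ f g : (ZMod 2)[X], f.natDegree = n ∧ f.support.card = 5 ∧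
      f.coeff 0 = 1 ∧ Irreducible g ∧ g ∣ f ∧ c * n ≤ g.natDegree :=
  Pool.Agent.Helper109.large_factor hc

end Pool.Agent.Results.MP_3aa220_nt.LargeFactor
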