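import Pool.Agent.Helper109.ClassesMain

/-!
# Degrees of irreducible binary pentanomials in residue classes modulo powers of two

The degrees are `m * r ^ i * s ^ j`, where `m` is the degree of one of fifteen explicit
irreducible pentanomials and `r`, `s` are primes such that its root is not an `r`-th or `s`-th power.
The certificates are evaluated by the kernel with a fast verified arithmetic (file `Kron.lean`).
-/

set_option autoImplicit false

namespace Pool.Agent.Results.MP_3aa220_nt.ResidueClasses

open Polynomial

theorem result (a k : ℕ) (ha : ¬ 2 ^ 13 ∣ a) (ε : ℝ) (hε : 0 < ε) :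
    ∃ B : ℝ, ∀ x : ℝ, B ≤ x → ∃ n : ℕ, n ≡ a [MOD 2 ^ k] ∧ x < n ∧ n ≤ (1 + ε) * x ∧
      ∃ p : (ZMod 2)[X], p.natDegree = n ∧ p.support.card = 5 ∧ Irreducible p :=
  Pool.Agent.Helper109.class_main ha hε

end Pool.Agent.Results.MP_3aa220_nt.ResidueClasses
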